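import Pool.Agent.Q141.CJC.Lattice

set_option autoImplicit false

/-!
# The lattice of maximal orthogonal pairs of a two-acyclic factorization system
-/

namespace Pool.Agent.Q141.CJC

open Set

variable {E : Type}

def Quo (A : E → E → Prop) (x y : E) : Prop := ∀ z, A y z → A x z

def Sub' (A : E → E → Prop) (x y : E) : Prop := ∀ z, A z x → A z y

structure TA (A : E → E → Prop) : Prop where
  refl : ∀ x, A x x
  fact : ∀ x y, A x y → ∃ z, Quo A x z ∧ Sub' A z y
  antiQ : ∀ x y, Quo A x y → Quo A y x → x = y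
  antiS : ∀ x y, Sub' A x y → Sub' A y x → x = y
  brick : ∀ x y, Quo A x y → Sub' A y x → x = y

lemma TA.swap {A : E → E → Prop} (h : TA A) : TA (fun x y => A y x) where
  refl := h.refl
  fact := fun x y hxy => by
    obtain ⟨z, h1, h2⟩ := h.fact y x hxy
    exact ⟨z, h2, h1⟩
  antiQ := fun x y h1 h2 => h.antiS x y h2 h1
  antiS := fun x y h1 h2 => h.antiQ x y h2 h1
  brick := fun x y h1 h2 => h.brick x y h2 h1

/-- the lattice of maximal orthogonal pairs -/
abbrev Lat (A : E → E → Prop) : Type := Concept E E (fun x y => ¬ A x y)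

instance [Finite E] (A : E → E → Prop) : Finite (Lat A) :=
  Finite.of_injective (fun c : Lat A => c.extent) Concept.extent_injective

variable {A : E → E → Prop}

lemma mem_ext (X : Lat A) (x : E) : x ∈ X.extent ↔ ∀ z ∈ X.intent, ¬ A x z := by
  conv_lhs => rw [← X.lowerPolar_intent]
  exact Iff.rfl

lemma mem_int (X : Lat A) (x : E) : x ∈ X.intent ↔ ∀ z ∈ X.extent, ¬ A z x := by
  constructor
  · intro hx z hz
    exact (mem_ext X z).1 hz x hx
  · intro h
    rw [← X.upperPolar_extent]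
    exact fun z hz => h z hz

lemma ext_quo (X : Lat A) {x y : E} (hx : x ∈ X.extent) (h : Quo A x y) : y ∈ X.extent := by
  rw [mem_ext] at hx ⊢
  intro z hz hyz
  exact hx z hz (h z hyz)

/-- `T(i)` -/
def TT (A : E → E → Prop) (i : E) : Lat A := Concept.ofObjects _ {i}

/-- `κ(T(i))` -/
def KK (A : E → E → Prop) (i : E) : Lat A := Concept.ofAttributes _ {i}

lemma mem_KK (i x : E) : x ∈ (KK A i).extent ↔ ¬ A x i := by
  show x ∈ lowerPolar _ {i} ↔ _
  rw [mem_lowerPolar_singleton]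

lemma mem_TT (i x : E) : x ∈ (TT A i).extent ↔ Quo A i x := by
  show x ∈ lowerPolar _ (upperPolar _ {i}) ↔ _
  rw [mem_lowerPolar_iff]
  constructor
  · intro h z hxz
    by_contra hiz
    exact h (by rw [mem_upperPolar_singleton]; exact hiz) hxz
  · intro h z hz hxz
    rw [mem_upperPolar_singleton] at hz
    exact hz (h z hxz)

lemma TT_le (X : Lat A) (i : E) : TT A i ≤ X ↔ i ∈ X.extent := by
  unfold TT
  rw [Concept.ofObjects_le_iff, Set.singleton_subset_iff]

lemma le_KK (X : Lat A) (i : E) : X ≤ KK A i ↔ ∀ x ∈ X.extent, ¬ A x i := by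
  rw [← Concept.extent_subset_extent_iff]
  constructor
  · intro h x hx
    exact (mem_KK i x).1 (h hx)
  · intro h x hx
    exact (mem_KK i x).2 (h x hx)

variable (hA : TA A)
include hA

lemma not_arrow {i x : E} (h : Quo A i x) (hne : x ≠ i) : ¬ A x i := by
  intro hxi
  obtain ⟨z, h1, h2⟩ := hA.fact x i hxi
  have h3 : Quo A i z := fun w hw => h w (h1 w hw)
  have h4 := hA.brick i z h3 h2
  subst h4
  exact hne (hA.antiQ x i h1 h)

/-- the key property -/
lemma key (X : Lat A) (i : E) (h1 : ∀ u, Quo A i u → u ≠ i → u ∈ X.extent) (h2 : i ∉ X.extent) :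
    X ≤ KK A i := by
  rw [le_KK]
  intro x hx hxi
  obtain ⟨z, h3, h4⟩ := hA.fact x i hxi
  have hz : z ∈ X.extent := ext_quo X hx h3
  rw [mem_ext] at h2
  push Not at h2
  obtain ⟨y, hy, hiy⟩ := h2
  obtain ⟨u, h5, h6⟩ := hA.fact i y hiy
  by_cases hui : u = i
  · subst hui
    have h7 : A z y := h6 z (h4 z (hA.refl z))
    exact (mem_ext X z).1 hz y hy h7
  · have h7 := h1 u h5 hui
    exact (mem_ext X u).1 h7 y hy (h6 u (hA.refl u))

lemma meetSD [Finite E] (x y z : Lat A) (h : x ⊓ y = x ⊓ z) : x ⊓ (y ⊔ z) = x ⊓ y := by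
  apply le_antisymm _ (inf_le_inf_left _ le_sup_left)
  by_contra hcon
  have hne : {i : E | TT A i ≤ x ⊓ (y ⊔ z) ∧ ¬ TT A i ≤ x ⊓ y}.Nonempty := by
    rw [← Concept.extent_subset_extent_iff, Set.not_subset] at hcon
    obtain ⟨i, h1, h2⟩ := hcon
    exact ⟨i, (TT_le _ i).2 h1, fun h3 => h2 ((TT_le _ i).1 h3)⟩
  obtain ⟨i, hi⟩ := (Set.toFinite _).exists_minimalFor (TT A) _ hne
  obtain ⟨⟨h1, h2⟩, hmin⟩ := hi
  have hstar : ∀ u, Quo A i u → u ≠ i → TT A u ≤ x ⊓ y := by
    intro u hu hne'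
    by_contra h3
    have h4 : TT A u ≤ TT A i := (TT_le _ u).2 ((mem_TT i u).2 hu)
    have h5 := hmin ⟨h4.trans h1, h3⟩ h4
    have h6 := (mem_TT u i).1 ((TT_le _ i).1 h5)
    exact hne' (hA.antiQ u i h6 hu)
  have hix : TT A i ≤ x := h1.trans inf_le_left
  have hy : y ≤ KK A i := by
    apply key hA
    · intro u hu hne'
      exact (TT_le _ u).1 ((hstar u hu hne').trans inf_le_right)
    · intro h3
      exact h2 (le_inf hix ((TT_le _ i).2 h3))
  have hz : z ≤ KK A i := by
    apply key hA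
    · intro u hu hne'
      have := hstar u hu hne'
      rw [h] at this
      exact (TT_le _ u).1 (this.trans inf_le_right)
    · intro h3
      apply h2
      rw [h]
      exact le_inf hix ((TT_le _ i).2 h3)
  have h3 : TT A i ≤ KK A i := (h1.trans inf_le_right).trans (sup_le hy hz)
  rw [TT_le, mem_KK] at h3
  exact h3 (hA.refl i)

lemma joinSD [Finite E] (x y z : Lat A) (h : x ⊔ y = x ⊔ z) : x ⊔ (y ⊓ z) = x ⊔ y := by
  have hs := hA.swap
  -- the dual lattice
  let f : Lat A → Lat (fun x y => A y x) := fun c => c.swap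
  have hf : ∀ c d, f c ≤ f d ↔ d ≤ c := fun c d => Concept.swap_le_swap_iff
  have hfs : ∀ c : Lat (fun x y => A y x), ∃ d, f d = c := fun c => ⟨c.swap, rfl⟩
  have hinj : ∀ c d, f c = f d → c = d := fun c d hcd =>
    le_antisymm ((hf d c).1 hcd.ge) ((hf c d).1 hcd.le)
  have hsup : ∀ c d, f (c ⊔ d) = f c ⊓ f d := by
    intro c d
    apply le_antisymm
    · exact le_inf ((hf _ _).2 le_sup_left) ((hf _ _).2 le_sup_right)
    · obtain ⟨e, he⟩ := hfs (f c ⊓ f d)
      rw [← he, hf]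
      refine sup_le ?_ ?_
      · rw [← hf, he]; exact inf_le_left
      · rw [← hf, he]; exact inf_le_right
  have hinf : ∀ c d, f (c ⊓ d) = f c ⊔ f d := by
    intro c d
    apply le_antisymm
    · obtain ⟨e, he⟩ := hfs (f c ⊔ f d)
      rw [← he, hf]
      refine le_inf ?_ ?_
      · rw [← hf, he]; exact le_sup_left
      · rw [← hf, he]; exact le_sup_right
    · exact sup_le ((hf _ _).2 inf_le_left) ((hf _ _).2 inf_le_right)
  apply hinj
  rw [hsup, hinf, hsup]
  apply meetSD hs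
  rw [← hsup, ← hsup, h]

lemma sd [Finite E] : Semidistributive (Lat A) :=
  ⟨fun x y z h => joinSD hA x y z h, fun x y z h => meetSD hA x y z h⟩

lemma TT_not_le_KK (i : E) : ¬ TT A i ≤ KK A i := by
  rw [TT_le, mem_KK]
  exact fun h => h (hA.refl i)

lemma lt_TT {X : Lat A} {i : E} (h : X < TT A i) : X ≤ KK A i := by
  have hi : i ∉ X.extent := fun h1 => absurd ((TT_le X i).2 h1) (not_le_of_gt h)
  rw [le_KK]
  intro x hx
  have h1 : Quo A i x := (mem_TT i x).1 (Concept.extent_subset_extent_iff.2 h.le hx)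
  exact not_arrow hA h1 (fun h2 => hi (h2 ▸ hx))

lemma TT_irred (i : E) : SupIrred (TT A i) := by
  refine ⟨?_, ?_⟩
  · intro hmin
    have h1 : TT A i ≤ TT A i ⊓ KK A i := hmin inf_le_left
    exact TT_not_le_KK hA i (h1.trans inf_le_right)
  · intro b c hbc
    by_contra hcon
    push Not at hcon
    apply TT_not_le_KK hA i
    have h1 : b ≤ TT A i := by rw [← hbc]; exact le_sup_left
    have h2 : c ≤ TT A i := by rw [← hbc]; exact le_sup_right
    calc TT A i = b ⊔ c := hbc.symm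
      _ ≤ KK A i := sup_le (lt_TT hA (lt_of_le_of_ne h1 hcon.1)) (lt_TT hA (lt_of_le_of_ne h2 hcon.2))

lemma TT_kprop (i : E) : KProp (TT A i) (KK A i) := by
  refine ⟨TT_not_le_KK hA i, fun x hx => lt_TT hA hx, ?_⟩
  intro X hX hX'
  apply key hA
  · intro u hu hne
    rw [← TT_le]
    apply hX
    refine lt_of_le_of_ne ((TT_le _ u).2 ((mem_TT i u).2 hu)) ?_
    intro h
    have h1 : TT A i ≤ TT A u := h.ge
    rw [TT_le, mem_TT] at h1
    exact hne (hA.antiQ u i h1 hu)
  · rw [← TT_le]; exact hX'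

lemma TT_inj {i j : E} (h : TT A i = TT A j) : i = j := by
  have h1 : TT A i ≤ TT A j := h.le
  have h2 : TT A j ≤ TT A i := h.ge
  rw [TT_le, mem_TT] at h1 h2
  exact hA.antiQ i j h2 h1

lemma TT_face [Finite E] {i j : E} (hne : i ≠ j) :
    (∃ w, IsCanonicalJoinRep {TT A i, TT A j} w) ↔ ¬ A i j ∧ ¬ A j i := by
  rw [pair_face (sd hA) (TT_irred hA i) (TT_irred hA j) (fun h => hne (TT_inj hA h))
    (TT_kprop hA i) (TT_kprop hA j), TT_le, TT_le, mem_KK, mem_KK]

end Pool.Agent.Q141.CJC
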