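import Mathlib

set_option autoImplicit false

/-!
# Canonical join complexes of finite semidistributive lattices: definitions
-/

namespace Pool.Agent.Q141.CJC

universe u

/-- A lattice is semidistributive if it is join-semidistributive and meet-semidistributive. -/
def Semidistributive (L : Type u) [Lattice L] : Prop :=
  (∀ x y z : L, x ⊔ y = x ⊔ z → x ⊔ (y ⊓ z) = x ⊔ y) ∧
  (∀ x y z : L, x ⊓ y = x ⊓ z → x ⊓ (y ⊔ z) = x ⊓ y)

/-- `A` is the canonical join representation of `w`: its join is `w`, no proper subset of `A` has
the join `w`, and `A` refines every set `B` whose join is `w`. -/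
def IsCanonicalJoinRep {L : Type u} [Lattice L] (A : Set L) (w : L) : Prop :=
  IsLUB A w ∧ (∀ B, B ⊂ A → ¬ IsLUB B w) ∧ ∀ B : Set L, IsLUB B w → ∀ a ∈ A, ∃ b ∈ B, a ≤ b

/-- The canonical join complex of `L`, on the vertex set of all join-irreducible elements: its
faces are the sets that are the canonical join representation of some element of `L`. -/
def canonicalJoinComplex (L : Type u) [Lattice L] : Set (Set {j : L // SupIrred j}) :=
  {A | ∃ w : L, IsCanonicalJoinRep (Subtype.val '' A) w}

/-- The subcomplex of `𝓕` induced on the vertex set `W`. -/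
def inducedSubcomplex {V : Type u} (𝓕 : Set (Set V)) (W : Set V) : Set (Set W) :=
  {A | Subtype.val '' A ∈ 𝓕}

/-- The set system `𝓕` on the vertex set `V` is isomorphic to the canonical join complex of some
finite semidistributive lattice. -/
def IsCanonicalJoinComplex {V : Type} (𝓕 : Set (Set V)) : Prop :=
  ∃ (L : Type u) (_ : Lattice L), Finite L ∧ Semidistributive L ∧
    ∃ e : V ≃ {j : L // SupIrred j}, ∀ A : Set V, A ∈ 𝓕 ↔ e '' A ∈ canonicalJoinComplex L

end Pool.Agent.Q141.CJC
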