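import Pool.Agent.Q141.CJC.Defs

set_option autoImplicit false

/-!
# Pairs of join-irreducible elements of a finite semidistributive lattice
-/

namespace Pool.Agent.Q141.CJC

universe u

variable {L : Type u} [Lattice L]

/-- `k` is the element `κ(j)` -/
def KProp (j k : L) : Prop :=
  ¬ j ≤ k ∧ (∀ x, x < j → x ≤ k) ∧ ∀ x, (∀ y, y < j → y ≤ x) → ¬ j ≤ x → x ≤ k

lemma exists_max [Finite L] (S : Set L) (hne : S.Nonempty) (hs : ∀ x ∈ S, ∀ y ∈ S, x ⊔ y ∈ S) :
    ∃ m ∈ S, ∀ x ∈ S, x ≤ m := by
  obtain ⟨m, hm⟩ := S.toFinite.exists_maximal hne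
  refine ⟨m, hm.1, fun x hx => ?_⟩
  have h1 := hm.2 (hs m hm.1 x hx) le_sup_left
  exact le_sup_right.trans h1

lemma exists_star [Finite L] {j : L} (hj : SupIrred j) : ∃ s, s < j ∧ ∀ x, x < j → x ≤ s := by
  have h1 : {x : L | x < j}.Nonempty := by
    by_contra hcon
    rw [Set.not_nonempty_iff_eq_empty] at hcon
    apply hj.1
    intro x hx
    by_contra h2
    have : x ∈ {x : L | x < j} := lt_of_le_not_ge hx h2
    rw [hcon] at this
    exact this
  have h2 : ∀ x ∈ {x : L | x < j}, ∀ y ∈ {x : L | x < j}, x ⊔ y ∈ {x : L | x < j} := by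
    intro x hx y hy
    refine lt_of_le_of_ne (sup_le (le_of_lt hx) (le_of_lt hy)) ?_
    intro h
    rcases hj.2 h with h1 | h1
    · exact absurd h1 (ne_of_lt hx)
    · exact absurd h1 (ne_of_lt hy)
  obtain ⟨m, hm, h⟩ := exists_max {x : L | x < j} h1 h2
  exact ⟨m, hm, fun x hx => h x hx⟩

lemma exists_kappa [Finite L] (hL : Semidistributive L) {j : L} (hj : SupIrred j) :
    ∃ k, KProp j k := by
  obtain ⟨s, hs, hs'⟩ := exists_star hj
  have h1 : ∀ x ∈ {x : L | s ≤ x ∧ ¬ j ≤ x}, ∀ y ∈ {x : L | s ≤ x ∧ ¬ j ≤ x},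
      x ⊔ y ∈ {x : L | s ≤ x ∧ ¬ j ≤ x} := by
    rintro x ⟨hx, hx'⟩ y ⟨hy, hy'⟩
    refine ⟨hx.trans le_sup_left, fun hcon => ?_⟩
    have e : ∀ z, s ≤ z → ¬ j ≤ z → j ⊓ z = s := by
      intro z hz hz'
      apply le_antisymm
      · apply hs'
        exact lt_of_le_of_ne inf_le_left (fun h => hz' (inf_eq_left.1 h))
      · exact le_inf hs.le hz
    have h1 := hL.2 j x y (by rw [e x hx hx', e y hy hy'])
    rw [e x hx hx', inf_eq_left.2 hcon] at h1
    exact absurd h1 (ne_of_gt hs)
  obtain ⟨m, hm, h⟩ := exists_max {x : L | s ≤ x ∧ ¬ j ≤ x} ⟨s, le_rfl, not_le_of_gt hs⟩ h1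
  exact ⟨m, hm.2, fun x hx => (hs' x hx).trans hm.1, fun x hx hx' => h x ⟨hx s hs, hx'⟩⟩

/-- The edges of the canonical join complex. -/
lemma pair_face [Finite L] (hL : Semidistributive L) {i j k l : L} (hi : SupIrred i)
    (hj : SupIrred j) (hne : i ≠ j) (hik : KProp i k) (hjl : KProp j l) :
    (∃ w, IsCanonicalJoinRep {i, j} w) ↔ i ≤ l ∧ j ≤ k := by
  have hdir : ∀ {i j l : L}, SupIrred j → i ≠ j → KProp j l →
      (∃ w, IsCanonicalJoinRep {i, j} w) → i ≤ l := by
    rintro i j l hj hne hjl ⟨w, h1, h2, h3⟩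
    by_contra hcon
    obtain ⟨s, hs, hs'⟩ := exists_star hj
    have hw : w = i ⊔ j := by
      apply h1.unique
      constructor
      · rintro x (rfl | rfl)
        · exact le_sup_left
        · exact le_sup_right
      · intro x hx
        exact sup_le (hx (Or.inl rfl)) (hx (Or.inr rfl))
    have hv : j ≤ i ⊔ s := by
      by_contra h4
      apply hcon
      refine le_sup_left.trans (hjl.2.2 (i ⊔ s) ?_ h4)
      intro y hy
      exact (hs' y hy).trans le_sup_right
    have hB : IsLUB {i, s} w := by
      rw [hw]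
      constructor
      · rintro x (rfl | rfl)
        · exact le_sup_left
        · exact hs.le.trans le_sup_right
      · intro x hx
        have h5 : i ⊔ s ≤ x := sup_le (hx (Or.inl rfl)) (hx (Or.inr rfl))
        exact sup_le (le_sup_left.trans h5) (hv.trans h5)
    obtain ⟨b, hb, hjb⟩ := h3 _ hB j (Or.inr rfl)
    rcases hb with rfl | rfl
    · apply h2 {b}
      · refine ⟨by simp, fun h => ?_⟩
        have : j ∈ ({b} : Set L) := h (Or.inr rfl)
        exact hne (this.symm)
      · rw [hw, sup_eq_left.2 hjb]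
        exact isLUB_singleton
    · exact absurd hjb (not_le_of_gt hs)
  constructor
  · intro h
    refine ⟨hdir hj hne hjl h, hdir hi hne.symm hik ?_⟩
    rw [Set.pair_comm]; exact h
  · rintro ⟨h1, h2⟩
    have hlub : ∀ {i j : L}, IsLUB {i, j} (i ⊔ j) := by
      intro i j
      constructor
      · rintro x (rfl | rfl)
        · exact le_sup_left
        · exact le_sup_right
      · intro x hx
        exact sup_le (hx (Or.inl rfl)) (hx (Or.inr rfl))
    have hij : ¬ j ≤ i := fun h => hjl.1 (h.trans h1)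
    have hji : ¬ i ≤ j := fun h => hik.1 (h.trans h2)
    refine ⟨i ⊔ j, hlub, ?_, ?_⟩
    · intro B hB hcon
      by_cases hiB : i ∈ B
      · have hjB : j ∉ B := by
          intro hjB
          apply hB.2
          rintro x (rfl | rfl)
          · exact hiB
          · exact hjB
        have h3 : i ∈ upperBounds B := by
          intro x hx
          rcases hB.1 hx with rfl | rfl
          · exact le_rfl
          · exact absurd hx hjB
        exact hij (le_sup_right.trans (hcon.2 h3))
      · have h3 : j ∈ upperBounds B := by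
          intro x hx
          rcases hB.1 hx with rfl | rfl
          · exact absurd hx hiB
          · exact le_rfl
        exact hji (le_sup_left.trans (hcon.2 h3))
    · have key : ∀ {i j k : L}, SupIrred i → KProp i k → j ≤ k → ∀ B : Set L, IsLUB B (i ⊔ j) →
          ∃ b ∈ B, i ≤ b := by
        intro i j k hi hik h2 B hB
        by_contra hcon
        push Not at hcon
        obtain ⟨s, hs, hs'⟩ := exists_star hi
        apply hik.1
        refine le_trans le_sup_left (hB.2 ?_)
        intro b hb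
        by_contra hbk
        set w' := (i ⊔ j) ⊓ k with hw'
        have hsw : s ≤ w' := le_inf (hs.le.trans le_sup_left) (hik.2.1 s hs)
        have hjw : j ≤ w' := le_inf le_sup_right h2
        have hbw : b ≤ i ⊔ j := hB.1 hb
        have hiv : i ≤ w' ⊔ b := by
          by_contra h4
          apply hbk
          refine le_sup_right.trans (hik.2.2 (w' ⊔ b) ?_ h4)
          intro y hy
          exact ((hs' y hy).trans hsw).trans le_sup_left
        have e1 : w' ⊔ b = i ⊔ j := by
          apply le_antisymm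
          · exact sup_le inf_le_left hbw
          · exact sup_le hiv (hjw.trans le_sup_left)
        have e2 : w' ⊔ i = i ⊔ j := by
          apply le_antisymm
          · exact sup_le inf_le_left le_sup_left
          · exact sup_le le_sup_right (hjw.trans le_sup_left)
        have h5 := hL.1 w' b i (by rw [e1, e2])
        have h6 : b ⊓ i ≤ w' := by
          refine (hs' _ ?_).trans hsw
          refine lt_of_le_of_ne inf_le_right (fun h => hcon b hb (inf_eq_right.1 h))
        rw [sup_eq_left.2 h6, e1] at h5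
        apply hik.1
        calc i ≤ i ⊔ j := le_sup_left
          _ = w' := h5.symm
          _ ≤ k := inf_le_right
      intro B hB a ha
      rcases ha with rfl | rfl
      · exact key hi hik h2 B hB
      · rw [sup_comm] at hB
        exact key hj hjl h1 B hB

/-- factorization of the relation `¬ i ≤ κ(j)` -/
lemma factor [Finite L] (hL : Semidistributive L) {i l : L} (h : ¬ i ≤ l) :
    ∃ z, SupIrred z ∧ z ≤ i ∧ ¬ z ≤ l ∧ ∀ k, KProp z k → l ≤ k := by
  obtain ⟨z, hz⟩ := (Set.toFinite {z : L | z ≤ i ∧ ¬ z ≤ l}).exists_minimal ⟨i, le_rfl, h⟩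
  have hlt : ∀ y, y < z → y ≤ l := by
    intro y hy
    by_contra hyl
    have := hz.2 ⟨hy.le.trans hz.1.1, hyl⟩ hy.le
    exact absurd this (not_le_of_gt hy)
  refine ⟨z, ⟨?_, ?_⟩, hz.1.1, hz.1.2, fun k hk => hk.2.2 l hlt hz.1.2⟩
  · intro hmin
    apply hz.1.2
    exact (hmin inf_le_left).trans inf_le_right
  · intro b c hbc
    by_contra hcon
    push Not at hcon
    apply hz.1.2
    rw [← hbc]
    refine sup_le (hlt b (lt_of_le_of_ne ?_ hcon.1)) (hlt c (lt_of_le_of_ne ?_ hcon.2))
    · rw [← hbc]; exact le_sup_left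
    · rw [← hbc]; exact le_sup_right

/-- `κ` is injective -/
lemma kappa_inj (hL : Semidistributive L) {i j k : L} (hi : KProp i k) (hj : KProp j k) : i = j := by
  have h1 : j ≤ k ⊔ i := by
    by_contra h
    have := hj.2.2 (k ⊔ i) (fun y hy => (hj.2.1 y hy).trans le_sup_left) h
    exact hi.1 (le_sup_right.trans this)
  have h2 : i ≤ k ⊔ j := by
    by_contra h
    have := hi.2.2 (k ⊔ j) (fun y hy => (hi.2.1 y hy).trans le_sup_left) h
    exact hj.1 (le_sup_right.trans this)
  have e : k ⊔ i = k ⊔ j :=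
    le_antisymm (sup_le le_sup_left h2) (sup_le le_sup_left h1)
  have h3 := hL.1 k i j e
  by_contra hne
  have h4 : i ⊓ j ≤ k := by
    by_cases h5 : i ⊓ j = i
    · have h6 : i < j := lt_of_le_of_ne (inf_eq_left.1 h5) hne
      exact inf_le_left.trans (hj.2.1 i h6)
    · exact hi.2.1 _ (lt_of_le_of_ne inf_le_left h5)
  rw [sup_eq_left.2 h4] at h3
  apply hi.1
  rw [h3]; exact le_sup_right

/-- If the non-edges of a canonical join complex form a triangle-free graph, then this graph is
3-colourable. -/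
theorem colorable_of_isCanonicalJoinComplex {V : Type} (K : SimpleGraph V)
    (hK : ∀ a b c, K.Adj a b → K.Adj b c → ¬ K.Adj a c)
    (𝓕 : Set (Set V)) (hF : ∀ a b, a ≠ b → ({a, b} ∈ 𝓕 ↔ ¬ K.Adj a b))
    (hc : IsCanonicalJoinComplex.{u} 𝓕) : K.Colorable 3 := by
  classical
  obtain ⟨L, _, _, hL, e, he⟩ := hc
  have hex : ∀ v : V, ∃ k, KProp (e v).1 k := fun v => exists_kappa hL (e v).2
  choose κ hκ using hex
  -- arrow relation
  let A : V → V → Prop := fun a b => ¬ (e a).1 ≤ κ b
  have hadj : ∀ a b, a ≠ b → (K.Adj a b ↔ A a b ∨ A b a) := by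
    intro a b hab
    have hne : (e a).1 ≠ (e b).1 := fun h => hab (e.injective (Subtype.ext h))
    have h1 := he {a, b}
    rw [hF a b hab] at h1
    have h2 : e '' {a, b} ∈ canonicalJoinComplex L ↔
        ∃ w, IsCanonicalJoinRep {(e a).1, (e b).1} w := by
      unfold canonicalJoinComplex
      rw [Set.mem_ofPred_eq, Set.image_pair, Set.image_pair]
    rw [h2, pair_face hL (e a).2 (e b).2 hne (hκ a) (hκ b)] at h1
    simp only [A]
    tauto
  have hAA : ∀ a, A a a := fun a => (hκ a).1
  -- factorization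
  have hfac : ∀ a b, A a b → ∃ c, (e c).1 ≤ (e a).1 ∧ ¬ (e c).1 ≤ κ b ∧ κ b ≤ κ c := by
    intro a b hab
    obtain ⟨z, hz, h1, h2, h3⟩ := factor hL hab
    obtain ⟨c, hc⟩ := e.surjective ⟨z, hz⟩
    have hcz : (e c).1 = z := by rw [hc]
    refine ⟨c, by rw [hcz]; exact h1, by rw [hcz]; exact h2, h3 _ ?_⟩
    rw [← hcz]; exact hκ c
  have hdirect : ∀ a b, a ≠ b → A a b → (e b).1 ≤ (e a).1 ∨ κ b ≤ κ a := by
    intro a b hab h
    obtain ⟨c, h1, h2, h3⟩ := hfac a b h
    by_cases hca : c = a
    · right; rw [← hca]; exact h3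
    by_cases hcb : c = b
    · left; rw [← hcb]; exact h1
    exfalso
    have hac : A a c := fun h4 => (hκ c).1 (h1.trans h4)
    have k1 := (hadj a c (Ne.symm hca)).2 (Or.inl hac)
    have k2 := (hadj c b hcb).2 (Or.inl h2)
    have k3 := (hadj a b hab).2 (Or.inl h)
    exact hK a c b k1 k2 k3
  -- `b` is a sink or `a` is a source
  have hsink : ∀ a b, a ≠ b → A a b → (∀ c, A b c → c = b) ∨ (∀ c, A c a → c = a) := by
    intro a b hab h
    rcases hdirect a b hab h with h1 | h1
    · left
      intro c hbc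
      by_contra hcb
      have hac : A a c := fun h2 => hbc (h1.trans h2)
      by_cases hca : c = a
      · subst hca
        have hlt : (e b).1 < (e c).1 := lt_of_le_of_ne h1 (fun h5 => hab (e.injective (Subtype.ext h5.symm)))
        exact hbc ((hκ c).2.1 _ hlt)
      · exact hK a b c ((hadj a b hab).2 (Or.inl h)) ((hadj b c (Ne.symm hcb)).2 (Or.inl hbc))
          ((hadj a c (Ne.symm hca)).2 (Or.inl hac))
    · right
      intro c hca
      by_contra hne
      have hcb : A c b := fun h2 => hca (h2.trans h1)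
      by_cases hcb' : c = b
      · subst hcb'
        have h5 : κ a ≤ κ c := by
          apply (hκ c).2.2 (κ a) (fun y hy => ((hκ c).2.1 y hy).trans h1)
          exact hca
        have h6 : κ a = κ c := le_antisymm h5 h1
        have h7 := hκ c
        rw [← h6] at h7
        exact hab (e.injective (Subtype.ext (kappa_inj hL (hκ a) h7)))
      · exact hK c a b ((hadj c a hne).2 (Or.inl hca)) ((hadj a b hab).2 (Or.inl h))
          ((hadj c b hcb').2 (Or.inl hcb))
  let col : V → Fin 3 := fun v =>
    if (∀ c, A c v → c = v) then 0 else if (∀ c, A v c → c = v) then 1 else 2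
  have hcol : ∀ a b, a ≠ b → A a b → col a ≠ col b := by
    intro a b hab h
    have hb : ¬ ∀ c, A c b → c = b := fun h1 => hab (h1 a h)
    have ha : ¬ ∀ c, A a c → c = a := fun h1 => hab (h1 b h).symm
    rcases hsink a b hab h with h1 | h1
    · have e1 : col b = 1 := by simp only [col]; rw [if_neg hb, if_pos h1]
      have e2 : col a ≠ 1 := by
        simp only [col]
        split_ifs <;> simp
      rw [e1]; exact e2
    · have e1 : col a = 0 := by simp only [col]; rw [if_pos h1]
      have e2 : col b ≠ 0 := by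
        simp only [col]
        rw [if_neg hb]
        split_ifs <;> simp
      rw [e1]; exact e2.symm
  refine ⟨SimpleGraph.Coloring.mk col ?_⟩
  intro a b hab
  have hne := hab.ne
  rcases (hadj a b hne).1 hab with h | h
  · exact hcol a b hne h
  · exact (hcol b a hne.symm h).symm

end Pool.Agent.Q141.CJC
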